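import Pool.Agent.Run7.h314.W10

/-!
# Non-real fields of torsion index less than eight

Let `F` be a field of characteristic different from `2` in which `-1` is a sum of squares. If each
nondegenerate quadratic form of even dimension over `F` becomes hyperbolic over a finite extension
of degree less than `8`, then each quadratic form of dimension greater than `42` over `F` is
isotropic, that is `u(F) ≤ 42`.
-/

set_option autoImplicit false

namespace Pool.Agent.Results.MP_8513f1_al.TorsionIndexBelowEight

universe u v

theorem result (F : Type u) [Field F] (hchar : ringChar F ≠ 2)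
    (hreal : ∃ (k : ℕ) (a : Fin k → F), ∑ i, a i ^ 2 = -1)
    (htau : ∀ (m : ℕ) (w : Fin (2 * m) → F), (∀ i, w i ≠ 0) →
      ∃ (L : Type v) (_ : Field L) (_ : Algebra F L),
        FiniteDimensional F L ∧ Module.finrank F L < 8 ∧
        ∃ W : Submodule L (Fin (2 * m) → L), Module.finrank L W = m ∧
          ∀ v ∈ W, ∑ i, algebraMap F L (w i) * v i ^ 2 = 0)
    (n : ℕ) (hn : 42 < n) (w : Fin n → F) :
    ∃ v : Fin n → F, v ≠ 0 ∧ ∑ i, w i * v i ^ 2 = 0 :=
  Pool.Agent.Run7.h314.main8 (Ring.two_ne_zero hchar) hreal htau hn w

end Pool.Agent.Results.MP_8513f1_al.TorsionIndexBelowEight
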